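import Pool.Agent.Lib.MP_ecbb26_gt.Final

/-!
Disproof of Q1 of MP_ecbb26_gt in a strong form: for `m ≥ 3000 l log l` there are hypersurfaces of
dimension `m` and cup-length at least `l` in the unit ball whose curvature is at most `10 ^ 6`.
The second clause, a consequence of the first, is the negated form of Q1 for every constant `c`.

A random projection of the torus `T^l`, embedded by its `2 ^ l` characters `∏ z_j^(±1)`, to `ℝ^m`
has bounded curvature; the example is a tube of fixed radius about it in `ℝ^(m+1)`.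
-/

set_option autoImplicit false

open scoped Manifold ContDiff ENNReal

namespace Pool.Agent.Results.MP_ecbb26_gt.BoundedCurvature

open Pool.Agent.Lib.MP_ecbb26_gt

theorem result :
    (∀ l m : ℕ, 2 ≤ l → 3000 * (l : ℝ) * Real.log l ≤ m →
      ∃ (X : Type) (_ : TopologicalSpace X) (_ : ChartedSpace (EuclideanSpace ℝ (Fin m)) X),
        IsManifold (𝓡 m) ∞ X ∧ T2Space X ∧ CompactSpace X ∧ ConnectedSpace X ∧
        (∃ (K : Type) (_ : Field K), CupLengthAtLeast K X l) ∧
        ∃ f : X → EuclideanSpace ℝ (Fin (m + 1)),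
          IsBallImmersion (EuclideanSpace ℝ (Fin m)) f ∧
          normalCurvature (EuclideanSpace ℝ (Fin m)) f ≤ 10 ^ 6) ∧
    ∀ c : ℝ, 0 < c → ∃ m k l : ℕ, 1 ≤ m ∧ 1 ≤ k ∧ 1 ≤ l ∧
      ∃ (X : Type) (_ : TopologicalSpace X) (_ : ChartedSpace (EuclideanSpace ℝ (Fin m)) X),
        IsManifold (𝓡 m) ∞ X ∧ T2Space X ∧ CompactSpace X ∧ ConnectedSpace X ∧
        (∃ (K : Type) (_ : Field K), CupLengthAtLeast K X l) ∧
        ∃ f : X → EuclideanSpace ℝ (Fin (m + k)),
          IsBallImmersion (EuclideanSpace ℝ (Fin m)) f ∧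
          normalCurvature (EuclideanSpace ℝ (Fin m)) f <
            ENNReal.ofReal (c * (l : ℝ) ^ 2 / ((m : ℝ) * (k : ℝ))) :=
  ⟨bounded, not_Q1⟩

end Pool.Agent.Results.MP_ecbb26_gt.BoundedCurvature
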